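import Pool.Agent.N658.FF.Stm

set_option autoImplicit false

/-! # Project FF, job A6: bound on the removed terms -/

open scoped BigOperators InnerProductSpace Classical

namespace Pool.Agent.N935.FF.Hol

open Pool.Agent.N658.FF

theorem Nb_succ {T : Type} [Fintype T] [DecidableEq T] (adj : T → T → Prop) (j : ℕ) (S : Finset T) :
    Nb adj j S ⊆ Nb adj (j + 1) S := by
  intro x hx
  rw [Nb]
  exact Finset.mem_union_left _ hx

theorem Nb_mono {T : Type} [Fintype T] [DecidableEq T] (adj : T → T → Prop) {i j : ℕ} (h : i ≤ j)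
    (S : Finset T) : Nb adj i S ⊆ Nb adj j S := by
  induction j, h using Nat.le_induction with
  | base => exact subset_rfl
  | succ j _ ih => exact ih.trans (Nb_succ adj j S)

theorem Nb_self {T : Type} [Fintype T] [DecidableEq T] (adj : T → T → Prop) (j : ℕ)
    (S : Finset T) : S ⊆ Nb adj j S := Nb_mono adj (Nat.zero_le j) S

theorem Nb_step {T : Type} [Fintype T] [DecidableEq T] (adj : T → T → Prop) (j : ℕ)
    (S : Finset T) {x y : T} (hx : x ∈ Nb adj j S) (hxy : adj x y) : y ∈ Nb adj (j + 1) S := by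
  rw [Nb]
  exact Finset.mem_union_right _ (Finset.mem_filter.mpr ⟨Finset.mem_univ _, x, hx, hxy⟩)

theorem key {T ι : Type} [DecidableEq T] [Fintype ι] [DecidableEq ι]
    (Nm Np : ι → Finset T) (near : ι → ι → Prop) (c : ℕ) (col : ι → Fin c)
    (hs : ∀ t j, near t j → near j t) (hc : ∀ t j, t ≠ j → near t j → col t ≠ col j)
    (hd : ∀ t j, t ≠ j → ¬ near t j → Disjoint (Nm t) (Np j)) (F : Finset ι) :
    ∀ ts : List ι, ts.Nodup → ts.Pairwise (fun t j => col t ≤ col j) →
    ∀ x ∈ hol Nm Np F ts, ∃ t ∈ ts, x ∈ Np t ∧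
      ∃ f ∈ F, t ∈ Nb near (c - 1 - (col t : ℕ)) {f} := by
  intro ts
  induction ts with
  | nil =>
    intro _ _ x hx
    simp [hol] at hx
  | cons t ts ih =>
    intro hn hp x hx
    rw [List.nodup_cons] at hn
    rw [List.pairwise_cons] at hp
    have ih' := ih hn.2 hp.2
    rw [hol] at hx
    have hrec : x ∈ hol Nm Np F ts → ∃ t' ∈ t :: ts, x ∈ Np t' ∧
        ∃ f ∈ F, t' ∈ Nb near (c - 1 - (col t' : ℕ)) {f} := by
      intro h
      obtain ⟨t', ht', h1, h2⟩ := ih' x h
      exact ⟨t', List.mem_cons_of_mem _ ht', h1, h2⟩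
    split_ifs at hx with hcond
    · rw [Finset.mem_union] at hx
      rcases hx with hx | hx
      · exact hrec hx
      · refine ⟨t, List.mem_cons_self, hx, ?_⟩
        rcases hcond with h | h
        · exact ⟨t, h, Nb_self _ _ _ (Finset.mem_singleton_self _)⟩
        · rw [Finset.not_disjoint_iff] at h
          obtain ⟨z, hz1, hz2⟩ := h
          obtain ⟨t', ht', h1, f, hf, h2⟩ := ih' z hz2
          have hne : t ≠ t' := fun h => hn.1 (h ▸ ht')
          have hnear : near t t' := by
            by_contra hno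
            exact Finset.disjoint_left.mp (hd t t' hne hno) hz1 h1
          have hlt : (col t : ℕ) < (col t' : ℕ) :=
            lt_of_le_of_ne (hp.1 t' ht') (fun h => hc t t' hne hnear (Fin.ext h))
          have hlc : (col t' : ℕ) < c := (col t').2
          refine ⟨f, hf, Nb_mono near ?_ _ (Nb_step near _ _ h2 (hs _ _ hnear))⟩
          omega
    · exact hrec hx

theorem holBound : StmHol := by
  intro T ι _ _ _ Nm Np near c col hs hc hd ts hn hp F _ x hx
  obtain ⟨t, -, h1, f, hf, h2⟩ := key Nm Np near c col hs hc hd F ts hn hp x hx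
  rw [Finset.mem_biUnion]
  refine ⟨t, ?_, h1⟩
  rw [Finset.mem_biUnion]
  exact ⟨f, hf, Nb_mono near (by omega) _ h2⟩

end Pool.Agent.N935.FF.Hol
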